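import Pool.Agent.Q189.SP.Four

/-!
# `ζ(3)/π³` is irrational if and only if four numbers are independent at one integer

Let `L(x) = Li_3(x) - log |x| Li_2(x) + (1/3) log² |x| Li_1(x)` be the single-valued trilogarithm on `-1 < x < 1`. The known
identity `L(1/n) + L(1 - 1/n) + L(1/(1-n)) = ζ(3)`, `n ≥ 3`, shows that the four numbers `π³`, `L(1/n)`, `L(1 - 1/n)`,
`L(1/(1-n))` are linearly dependent over the rational numbers for ALL `n` if `ζ(3)/π³` is rational. We prove the converse,
and ONE `n` is enough: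

* `ζ(3)/π³` is irrational if and only if for ONE integer `n ≥ 3` the four numbers are linearly independent over `ℚ`; in this case
  they are for all `n ≤ T` but `C T ^ (1 - c)`;
* `ζ(3)/π³` is transcendental if and only if for each number field `K` in `ℂ` there is one `n ≥ 3` such that the four numbers
  are linearly independent over `K`; again this holds then for almost all `n`.

The definitions and the proof are in `Pool.Agent.Q189.SP.Four`. The unconditional result on the relations of the three values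
with arbitrary constants is the companion `OnlyRelationAtIntegers`.
-/

set_option autoImplicit false

open Module

namespace Pool.Agent.Results.MP_e47f08_nt.CriterionAtOneInteger

open Pool.Agent.Q189.SP.Four (zeta3 L four)

/-- (1) the identity; (2) the criteria for irrationality; (3) the criteria for transcendence. -/
theorem result :
    (∀ n : ℕ, 3 ≤ n → L (1 / n) + L (1 - 1 / n) + L (1 / (1 - n)) = zeta3) ∧
    ((Irrational (zeta3 / Real.pi ^ 3) ↔ ∃ n : ℕ, 3 ≤ n ∧ LinearIndependent ℚ (four n)) ∧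
      (Irrational (zeta3 / Real.pi ^ 3) ↔ ∃ C c : ℝ, 0 < c ∧ ∀ T : ℕ, 1 ≤ T →
        (({n : ℕ | 3 ≤ n ∧ n ≤ T ∧ ¬ LinearIndependent ℚ (four n)}.ncard : ℕ) : ℝ) ≤ C * (T : ℝ) ^ (1 - c))) ∧
    ((Transcendental ℚ (zeta3 / Real.pi ^ 3) ↔ ∀ K : IntermediateField ℚ ℂ, FiniteDimensional ℚ K →
        ∃ n : ℕ, 3 ≤ n ∧ LinearIndependent K fun i => ((four n i : ℝ) : ℂ)) ∧
      (Transcendental ℚ (zeta3 / Real.pi ^ 3) ↔ ∀ K : IntermediateField ℚ ℂ, FiniteDimensional ℚ K →
        ∃ C c : ℝ, 0 < c ∧ ∀ T : ℕ, 1 ≤ T → (({n : ℕ | 3 ≤ n ∧ n ≤ T ∧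
          ¬ LinearIndependent K fun i => ((four n i : ℝ) : ℂ)}.ncard : ℕ) : ℝ) ≤ C * (T : ℝ) ^ (1 - c))) :=
  ⟨Pool.Agent.Q189.SP.Four.joined.1, Pool.Agent.Q189.SP.Four.joined.2.1, Pool.Agent.Q189.SP.Four.joined.2.2.1⟩

end Pool.Agent.Results.MP_e47f08_nt.CriterionAtOneInteger
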