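import Pool.Agent.Q138.PS.XL
import Pool.Agent.Q138.PS.VY
import Pool.Agent.Q138.PS.WB
import Pool.Agent.Q138.PS.VE
import Pool.Agent.Q138.AI.Re47f08

/-!
# `ζ(3)/π³` and single-valued trilogarithms at `1/t`, `1 - 1/t`, `1/(1-t)`, `t` close to `c n^j α^n`

Let `L(x) = Li_3(x) - log|x| Li_2(x) + (1/3) log²|x| Li_1(x)` be the single-valued trilogarithm, so that
`ζ(3) = L(1/t) + L(1 - 1/t) + L(1/(1-t))` for all integers `t ≥ 3`. Let `S` be any countable set of complex numbers.

For almost every real number `α > 1` the following holds. The properties `A` of integers named below are RARE along the powers of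
`α`: there is `κ > 0` such that for all algebraic numbers `c > 0`, all integers `j`, all real `D` and all large `n`, NO integer
`t ≥ b` (`b = 2` or `3`) with `|t - c n^j α^n| ≤ D (c n^j α^n)^κ` has the property `A`.

* `ζ(3)/π³` is irrational if and only if it is rare that `π³`, `L(1/t)`, `L(1 - 1/t)`, `L(1/(1-t))` are linearly dependent
  over `ℚ`;
* `ζ(3)/π³` is transcendental if and only if for each number field `K` it is rare that these four numbers are linearly dependent
  over `K`;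
* for each finitely generated rational space `K` inside the rational span of `S` it is rare that there is a relation
  `κ + β_0 L(1/t) + β_1 L(1 - 1/t) + β_2 L(1/(1-t)) = 0` with coefficients in `K` other than those with
  `β_0 = β_1 = β_2`, `κ = -β_2 ζ(3)`.
-/

set_option autoImplicit false

namespace Pool.Agent.Results.MP_e47f08_nt.IndependenceNearPowers

open Filter Module MeasureTheory Pool.Agent.Q138.PS Pool.Agent.Q138.AI.Re47f08

/-- **Theorem.** -/
theorem result (S : Set ℂ) (hS : S.Countable) :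
    ∀ᵐ α : ℝ, 1 < α →
      (Irrational (zeta3 / Real.pi ^ 3) ↔ RarePow α 3 fun n => ¬ LinearIndependent ℚ (four n)) ∧
      (Transcendental ℚ (zeta3 / Real.pi ^ 3) ↔ ∀ K : IntermediateField ℚ ℂ, FiniteDimensional ℚ K →
        RarePow α 3 fun n => ¬ LinearIndependent K fun i => ((four n i : ℝ) : ℂ)) ∧
      ∀ K : Submodule ℚ ℂ, K.FG → K ≤ Submodule.span ℚ S → RarePow α 3 fun n => ¬ OnlyRelation K n := by
  obtain ⟨-, ⟨h1a, h1b⟩, ⟨h2a, h2b⟩, h3, -⟩ := Pool.Agent.Q138.AI.Re47f08.result
  have hc := countFG S hS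
  have hcF := countF
  have hae := rarePow_ae (ι := Unit ⊕ ({K : IntermediateField ℚ ℂ // FiniteDimensional ℚ K} ⊕
      {K : Submodule ℚ ℂ // K.FG ∧ K ≤ Submodule.span ℚ S}))
    (Sum.elim (fun _ n => ¬ LinearIndependent ℚ (four n)) (Sum.elim
      (fun K n => ¬ LinearIndependent K.1 fun i => ((four n i : ℝ) : ℂ)) (fun K n => ¬ OnlyRelation K.1 n)))
  filter_upwards [hae] with α hg hα
  have h1 := hg hα
  refine ⟨⟨fun h => h1 (Sum.inl ()) 3 (h1b.1 h), fun h => ?_⟩, ⟨fun h K hK => ?_, fun h => ?_⟩, fun K hK hKS => ?_⟩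
  · obtain ⟨n, hn, hn'⟩ := h.exists_not hα
    exact h1a.2 ⟨n, hn, not_not.1 hn'⟩
  · exact h1 (Sum.inr (Sum.inl ⟨K, hK⟩)) 3 (h2b.1 h K hK)
  · refine h2a.2 fun K hK => ?_
    obtain ⟨n, hn, hn'⟩ := (h K hK).exists_not hα
    exact ⟨n, hn, not_not.1 hn'⟩
  · refine h1 (Sum.inr (Sum.inr ⟨K, hK, hKS⟩)) 3 ?_
    obtain ⟨g, θ, hθ⟩ := fg_range K hK
    obtain ⟨C, c, hc, h6⟩ := h3 g
    refine ⟨C, c, hc, fun T hT => ?_⟩
    have h7 := h6 θ T hT
    rw [hθ] at h7
    exact h7

end Pool.Agent.Results.MP_e47f08_nt.IndependenceNearPowers
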