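import Pool.Agent.Q189.SP.Four

/-!
# The only relations of three values of the single-valued trilogarithm with arbitrary constants, and near relations

Let `L(x) = Li_3(x) - log |x| Li_2(x) + (1/3) log² |x| Li_1(x)` be the single-valued trilogarithm on `-1 < x < 1`; for integers
`n ≥ 3` there is the known relation `L(1/n) + L(1 - 1/n) + L(1/(1-n)) = ζ(3)`.

* For arbitrary complex numbers `θ_1, …, θ_g` (for instance `π³` times a basis of a number field, and this basis) with rational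
  span `K`, for all `n ≤ T` but `C T ^ (1 - c)` (`C`, `c > 0` depend only on `g`): the relations
  `β_0 L(1/n) + β_1 L(1 - 1/n) + β_2 L(1/(1-n)) + κ = 0` with coefficients in `K` have `β_0 = β_1 = β_2` and `κ = -β_2 ζ(3)`. So
  `π³`, `L(1/n)`, `L(1 - 1/n)` are linearly independent over each number field for almost all `n`.
* Near relations: at such `n`, for almost all heights `H` and coefficients which are integral combinations of the `θ_l` with
  coefficients at most `H`, the numbers `|κ + β_2 ζ(3)|`, `|β_0 - β_2|`, `|β_1 - β_2|` are at most `H ^ B` times the absolute value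
  of the form. With `θ = (π³, 1)` this transfers each measure of irrationality of `ζ(3)/π³` to the four numbers.

The definitions and the proof are in `Pool.Agent.Q189.SP.Four`.
-/

set_option autoImplicit false

open Module

namespace Pool.Agent.Results.MP_e47f08_nt.OnlyRelationAtIntegers

open Pool.Agent.Q189.SP.Four (OnlyRelation Good)

/-- (1) the only relations at almost all integers; (2) near relations. -/
theorem result :
    (∀ g : ℕ, ∃ C c : ℝ, 0 < c ∧ ∀ θ : Fin g → ℂ, ∀ T : ℕ, 1 ≤ T →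
      (({n : ℕ | 3 ≤ n ∧ n ≤ T ∧ ¬ OnlyRelation (Submodule.span ℚ (Set.range θ)) n}.ncard : ℕ) : ℝ) ≤
        C * (T : ℝ) ^ (1 - c)) ∧
    ∀ g : ℕ, ∃ (B : ℕ) (C c : ℝ), 0 < c ∧ ∀ T : ℕ, 1 ≤ T →
      (∃ H₀ : ℝ, ∀ H₁ : ℝ, H₀ ≤ H₁ → ∀ θ : Fin g → ℂ,
        (({n : ℕ | 3 ≤ n ∧ n ≤ T ∧ ¬ ∀ H : ℝ, H₁ ≤ H → H ≤ H₁ ^ Real.exp ((T : ℝ) ^ c) → Good B θ n H}.ncard : ℕ) : ℝ) ≤
          C * (T : ℝ) ^ (1 - c)) ∧
      ∀ θ : Fin g → ℂ, (({n : ℕ | 3 ≤ n ∧ n ≤ T ∧ ¬ ∀ N₀ : ℕ, ∃ N, N₀ ≤ N ∧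
        (({s : ℕ | s < N ∧ ¬ ∀ H : ℝ, 2 ^ (2 ^ s) ≤ H → H ≤ 2 ^ (2 ^ (s + 1)) → Good B θ n H}.ncard : ℕ) : ℝ) ≤
            (T : ℝ) ^ (-c) * N}.ncard : ℕ) : ℝ) ≤ C * (T : ℝ) ^ (1 - c) :=
  Pool.Agent.Q189.SP.Four.joined.2.2.2

end Pool.Agent.Results.MP_e47f08_nt.OnlyRelationAtIntegers
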